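import Pool.Agent.Lib.GBC.J.Alg

/-!
Block J (genus one): the `j`-invariant of the members of the family is transcendental over `k`.

Let `A = f.coeff 1`, `B = f.coeff 0`, `δ = 4 A ^ 3 + 27 B ^ 2`. `δ` is not a unit of the ring `G.A`
(`t ^ (-12 m) δ` is a unit at infinity), so it is in a maximal ideal `P`. If `A ∉ P` then `j` has a
pole at `P`. If `A ∈ P` then `B ∈ P`, and `B ∉ P ^ 2` because `f` is regular at `P`, and `j` has a
zero at `P`. In both cases `j` is transcendental if it is not `0`, i.e. if `A ≠ 0`.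
-/

set_option autoImplicit false

open Polynomial IsDedekindDomain

namespace Pool.Agent.GBC

open Pool.Agent.BSDP Pool.Agent.BSDFF Pool.Agent.HYP

/-- An element with a nontrivial value is transcendental over the constants. -/
theorem transcendental_of_val {k K Γ : Type} [Field k] [Field K] [Algebra k K]
    [LinearOrderedCommGroupWithZero Γ] (v : Valuation K Γ)
    (hv : ∀ c : k, c ≠ 0 → v (algebraMap k K c) = 1) {j : K} (hj0 : j ≠ 0) (hj : v j ≠ 1) :
    Transcendental k j := by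
  have key : ∀ T : K, T ≠ 0 → v T < 1 → Transcendental k T := by
    intro T hT0 hT halg
    have hc : ∀ c : k, v (algebraMap k K c) ≤ 1 := by
      intro c
      by_cases h : c = 0
      · simp [h]
      · exact (hv c h).le
    have hm : ∀ p : k[X], v (aeval T p) ≤ 1 := by
      intro p
      induction p using Polynomial.induction_on with
      | C a => rw [aeval_C]; exact hc a
      | add p q hp hq =>
        rw [map_add]
        exact (v.map_add _ _).trans (max_le hp hq)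
      | monomial n a h =>
        rw [pow_succ, ← mul_assoc, map_mul, aeval_X, map_mul]
        exact mul_le_one' h hT.le
    have h : (0 : K) - algebraMap k K ((minpoly k T).coeff 0) = aeval T (minpoly k T).divX * T := by
      conv_lhs => rw [← minpoly.aeval k T]
      conv_lhs => enter [1]; rw [← Polynomial.divX_mul_X_add (minpoly k T)]
      simp
    have h1 : v (aeval T (minpoly k T).divX * T) < 1 := by
      rw [mul_comm, map_mul]
      exact mul_lt_one_of_lt_of_le hT (hm _)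
    rw [← h, zero_sub, Valuation.map_neg,
      hv _ (minpoly.coeff_zero_ne_zero halg.isIntegral hT0)] at h1
    exact lt_irrefl _ h1
  rcases lt_or_gt_of_ne hj with h | h
  · exact key j hj0 h
  · intro halg
    have h1 : v j⁻¹ < 1 := by
      rw [map_inv₀]
      exact inv_lt_one_of_one_lt₀ h
    exact key j⁻¹ (inv_ne_zero hj0) h1 halg.inv

/-- A cubic `x ^ 3 + a x + b` with zero discriminant has a root. -/
theorem exists_root_of_disc {F : Type} [Field F] {a b : F}
    (h : 4 * a ^ 3 + 27 * b ^ 2 = 0) (h3 : (3 : F) ≠ 0) : ∃ x : F, x ^ 3 + a * x + b = 0 := by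
  by_cases ha : a = 0
  · subst ha
    have hb : b = 0 := by
      have h27 : (27 : F) ≠ 0 := by
        rw [show (27 : F) = 3 ^ 3 by norm_num]
        exact pow_ne_zero _ h3
      have : 27 * b ^ 2 = 0 := by linear_combination h
      rcases mul_eq_zero.1 this with h' | h'
      · exact absurd h' h27
      · exact (pow_eq_zero_iff two_ne_zero).1 h'
    exact ⟨0, by rw [hb]; ring⟩
  · refine ⟨3 * b / a, ?_⟩
    field_simp
    linear_combination b * h

section
variable {k K : Type} [Field k] [Field K] [Algebra k K] {G : Geo k K} {D : Data G 1}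

/-- The equation of a member of the family. -/
theorem Fam.eq_cub {m : ℕ} {f : G.A[X]} (hf : Fam D m f) :
    f = X ^ 3 + C (f.coeff 1) * X + C (f.coeff 0) := by
  have hd : f.natDegree = 3 := hf.deg
  have h2 : f.coeff 2 = 0 := hf.tr
  have h3 : f.coeff 3 = 1 := by
    have := hf.monic.coeff_natDegree
    rwa [hd] at this
  conv_lhs => rw [f.as_sum_range_C_mul_X_pow, hd]
  simp only [Finset.sum_range_succ, Finset.sum_range_zero, h2, h3]
  simp
  ring

theorem Data.coeff3 : D.φ.coeff 3 = 1 := by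
  have := D.monic.coeff_natDegree
  rwa [D.deg] at this

theorem Data.eq_cub : D.φ = X ^ 3 + C (D.φ.coeff 1) * X + C (D.φ.coeff 0) := by
  have hd : D.φ.natDegree = 3 := D.deg
  have h2 : D.φ.coeff 2 = 0 := D.tr
  conv_lhs => rw [D.φ.as_sum_range_C_mul_X_pow, hd]
  simp only [Finset.sum_range_succ, Finset.sum_range_zero, h2, Data.coeff3]
  simp
  ring

/-- The discriminant of the leading form is a unit at infinity. -/
theorem Data.disc_notMem (h3 : (3 : k) ≠ 0) {m : Ideal G.B} (hm : m.IsMaximal) :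
    4 * D.φ.coeff 1 ^ 3 + 27 * D.φ.coeff 0 ^ 2 ∉ m := by
  intro h
  let _ := Ideal.Quotient.field m
  have hirr := D.irr m hm
  have h3' : (3 : G.B ⧸ m) ≠ 0 := by
    have h1 := (map_ne_zero_iff (algebraMap k (G.B ⧸ m)) (algebraMap k (G.B ⧸ m)).injective).2 h3
    rwa [map_ofNat] at h1
  have h0 : 4 * (Ideal.Quotient.mk m (D.φ.coeff 1)) ^ 3 +
      27 * (Ideal.Quotient.mk m (D.φ.coeff 0)) ^ 2 = 0 := by
    have := Ideal.Quotient.eq_zero_iff_mem.2 h
    simpa [map_ofNat] using this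
  obtain ⟨x, hx⟩ := exists_root_of_disc h0 h3'
  have heq : D.φ.map (Ideal.Quotient.mk m) = X ^ 3 + C (Ideal.Quotient.mk m (D.φ.coeff 1)) * X +
      C (Ideal.Quotient.mk m (D.φ.coeff 0)) := by
    conv_lhs => rw [Data.eq_cub (D := D)]
    simp
  have hroot : (D.φ.map (Ideal.Quotient.mk m)).IsRoot x := by
    rw [heq, IsRoot.def]
    simpa using hx
  have hdeg : (D.φ.map (Ideal.Quotient.mk m)).natDegree = 3 := by
    rw [D.monic.natDegree_map, D.deg]
  have h1 := Polynomial.degree_eq_one_of_irreducible_of_root hirr hroot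
  rw [degree_eq_natDegree hirr.ne_zero, hdeg] at h1
  norm_num at h1

/-- `a_j = t ^ (2 m (3 - j)) (φ_j + t⁻¹ b)` -/
theorem Fam.lead_eq {m : ℕ} {f : G.A[X]} (hf : Fam D m f) {j : ℕ} (hj : j ≤ 3) :
    ∃ b : G.B, (f.coeff j : K) = G.t ^ (2 * m * (3 - j)) * ((D.φ.coeff j : K) + G.t⁻¹ * (b : K)) := by
  have h := hf.lead j hj
  have ht := G.t_ne
  refine ⟨⟨_, h⟩, ?_⟩
  change _ = G.t ^ (2 * m * (3 - j)) * ((D.φ.coeff j : K) + G.t⁻¹ * (G.t ^ (-(_ : ℤ)) * (_ - _)))
  have e1 : G.t ^ (-(2 * (m : ℤ) * ((2 * 1 + 1 - j : ℕ) : ℤ) - 1)) =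
      G.t * (G.t ^ (2 * m * (3 - j)))⁻¹ := by
    rw [neg_sub, sub_eq_add_neg, zpow_add₀ ht, zpow_one, zpow_neg]
    congr 2
    rw [← zpow_natCast]
    congr 1
  rw [e1]
  have e2 : G.t ^ (2 * m * (3 - j)) ≠ 0 := pow_ne_zero _ ht
  have e3 : (2 * m * (2 * 1 + 1 - j)) = 2 * m * (3 - j) := rfl
  rw [e3]
  field_simp
  ring

/-- `δ = t ^ (12 m) u`, `u` a unit at infinity. -/
theorem Fam.disc_eq (h3 : (3 : k) ≠ 0) {m : ℕ} {f : G.A[X]} (hf : Fam D m f) :
    ∃ u : G.B, IsUnit u ∧ 4 * (f.coeff 1 : K) ^ 3 + 27 * (f.coeff 0 : K) ^ 2 =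
      G.t ^ (12 * m) * (u : K) := by
  obtain ⟨b1, hb1⟩ := hf.lead_eq (j := 1) (by norm_num)
  obtain ⟨b0, hb0⟩ := hf.lead_eq (j := 0) (by norm_num)
  refine ⟨4 * (D.φ.coeff 1 + G.ti * b1) ^ 3 + 27 * (D.φ.coeff 0 + G.ti * b0) ^ 2, ?_, ?_⟩
  · by_contra hu
    obtain ⟨𝔪, h𝔪, hmem⟩ := exists_max_ideal_of_mem_nonunits hu
    apply Data.disc_notMem (D := D) h3 h𝔪
    have hti : G.ti ∈ 𝔪 := G.rad 𝔪 h𝔪
    have h1 : 4 * D.φ.coeff 1 ^ 3 + 27 * D.φ.coeff 0 ^ 2 =
        (4 * (D.φ.coeff 1 + G.ti * b1) ^ 3 + 27 * (D.φ.coeff 0 + G.ti * b0) ^ 2) -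
        G.ti * (4 * b1 * (3 * D.φ.coeff 1 ^ 2 + 3 * D.φ.coeff 1 * (G.ti * b1) + (G.ti * b1) ^ 2) +
          27 * b0 * (2 * D.φ.coeff 0 + G.ti * b0)) := by ring
    rw [h1]
    exact 𝔪.sub_mem hmem (𝔪.mul_mem_right _ hti)
  · rw [hb1, hb0]
    have e : ((4 * (D.φ.coeff 1 + G.ti * b1) ^ 3 + 27 * (D.φ.coeff 0 + G.ti * b0) ^ 2 : G.B) : K) =
        4 * ((D.φ.coeff 1 : K) + G.t⁻¹ * (b1 : K)) ^ 3 +
          27 * ((D.φ.coeff 0 : K) + G.t⁻¹ * (b0 : K)) ^ 2 := rfl
    rw [e]
    have e1 : 2 * m * (3 - 1) = 4 * m := by omega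
    have e0 : 2 * m * (3 - 0) = 6 * m := by omega
    rw [e1, e0]
    ring

theorem Fam.coeff_one_ne (hφ : ∃ 𝔪 : Ideal G.B, 𝔪.IsMaximal ∧ D.φ.coeff 1 ∉ 𝔪) {m : ℕ} {f : G.A[X]}
    (hf : Fam D m f) : f.coeff 1 ≠ 0 := by
  intro h0
  obtain ⟨𝔪, h𝔪, hn⟩ := hφ
  obtain ⟨b1, hb1⟩ := hf.lead_eq (j := 1) (by norm_num)
  apply hn
  have h1 : (D.φ.coeff 1 : K) + G.t⁻¹ * (b1 : K) = 0 := by
    rw [h0] at hb1
    have := hb1.symm
    rw [ZeroMemClass.coe_zero] at this
    exact (mul_eq_zero.1 this).resolve_left (pow_ne_zero _ G.t_ne)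
  have h2 : D.φ.coeff 1 = -(G.ti * b1) := by
    apply Subtype.ext
    change (D.φ.coeff 1 : K) = -(G.t⁻¹ * (b1 : K))
    linear_combination h1
  rw [h2]
  exact 𝔪.neg_mem (𝔪.mul_mem_right _ (G.rad 𝔪 h𝔪))

/-- The discriminant is not a unit of `A`. -/
theorem Fam.disc_nonunit (h3 : (3 : k) ≠ 0) {m : ℕ} (hm : 1 ≤ m) {f : G.A[X]} (hf : Fam D m f) :
    4 * f.coeff 1 ^ 3 + 27 * f.coeff 0 ^ 2 ≠ 0 ∧
      ¬ IsUnit (4 * f.coeff 1 ^ 3 + 27 * f.coeff 0 ^ 2) := by
  obtain ⟨u, hu, he⟩ := hf.disc_eq h3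
  obtain ⟨v, hv⟩ := hu.exists_right_inv
  have hv' : (u : K) * (v : K) = 1 := congrArg Subtype.val hv
  have hc : ((4 * f.coeff 1 ^ 3 + 27 * f.coeff 0 ^ 2 : G.A) : K) = G.t ^ (12 * m) * (u : K) := he
  have ht := G.t_ne
  have hu0 : (u : K) ≠ 0 := left_ne_zero_of_mul_eq_one hv'
  constructor
  · intro h0
    rw [h0, ZeroMemClass.coe_zero] at hc
    exact mul_ne_zero (pow_ne_zero _ ht) hu0 hc.symm
  · intro hunit
    obtain ⟨w, hw⟩ := hunit.exists_right_inv
    have hw' : G.t ^ (12 * m) * (u : K) * (w : K) = 1 := by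
      rw [← hc]
      exact congrArg Subtype.val hw
    have hw2 : (w : K) = 0 := by
      apply G.inter _ w.2
      have e1 : G.t * (w : K) = (G.t⁻¹) ^ (12 * m - 1) * (v : K) := by
        have e2 : 12 * m = (12 * m - 1) + 1 := by omega
        rw [e2, pow_succ] at hw'
        have e3 : G.t ^ (12 * m - 1) ≠ 0 := pow_ne_zero _ ht
        rw [inv_pow]
        apply mul_left_cancel₀ (mul_ne_zero e3 hu0)
        rw [← mul_assoc] at *
        linear_combination hw' - hv' * (G.t ^ (12 * m - 1) * (G.t ^ (12 * m - 1))⁻¹) -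
          mul_inv_cancel₀ e3
      rw [e1]
      exact G.B.mul_mem (G.B.pow_mem G.inv_mem _) v.2
    rw [hw2, mul_zero] at hw'
    exact zero_ne_one hw'

/-- If `f` is regular at `P` and `f.coeff 1 ∈ P`, then `f.coeff 0 ∉ P ^ 2`. -/
theorem Fam.coeff_zero_notMem {m : ℕ} {f : G.A[X]} (hf : Fam D m f) {P : Ideal G.A}
    (hP : P.IsMaximal) (h1 : f.coeff 1 ∈ P) : f.coeff 0 ∉ P ^ 2 := by
  intro h0
  apply hf.reg P hP X monic_X (by rw [natDegree_X])
  rw [hf.eq_cub]
  set I := P.map (C : G.A →+* G.A[X]) ⊔ Ideal.span {X} with hI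
  have hX : (X : G.A[X]) ∈ I := Ideal.mem_sup_right (Ideal.mem_span_singleton_self _)
  have hle : P.map (C : G.A →+* G.A[X]) ≤ I := le_sup_left
  have hC1 : C (f.coeff 1) ∈ I := hle (Ideal.mem_map_of_mem _ h1)
  have hC0 : C (f.coeff 0) ∈ I ^ 2 := by
    have : C (f.coeff 0) ∈ (P ^ 2).map (C : G.A →+* G.A[X]) := Ideal.mem_map_of_mem _ h0
    rw [Ideal.map_pow] at this
    exact Ideal.pow_right_mono hle 2 this
  refine (I ^ 2).add_mem ((I ^ 2).add_mem ?_ ?_) hC0
  · rw [pow_succ]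
    exact (I ^ 2).mul_mem_right _ (Ideal.pow_mem_pow hX 2)
  · rw [pow_two]
    exact Ideal.mul_mem_mul hC1 hX

/-- **The `j`-invariant is transcendental over `k`.** -/
theorem Fam.j_transcendental (h2 : (2 : k) ≠ 0) (h3 : (3 : k) ≠ 0)
    (hφ : ∃ 𝔪 : Ideal G.B, 𝔪.IsMaximal ∧ D.φ.coeff 1 ∉ 𝔪) {m : ℕ} (hm : 1 ≤ m) {f : G.A[X]}
    (hf : Fam D m f) {e : K} (he : e ≠ 0) :
    Transcendental k ((curve ((f.coeff 1 : K) * e ^ 2) ((f.coeff 0 : K) * e ^ 3)).c₄ ^ 3 /
      (curve ((f.coeff 1 : K) * e ^ 2) ((f.coeff 0 : K) * e ^ 3)).Δ) := by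
  obtain ⟨hd0, hdu⟩ := hf.disc_nonunit h3 hm
  obtain ⟨P, hP, hdP⟩ := exists_max_ideal_of_mem_nonunits hdu
  have hPb : P ≠ ⊥ := by
    rintro rfl
    exact hd0 (by simpa using hdP)
  set v : HeightOneSpectrum G.A := ⟨P, hP.isPrime, hPb⟩ with hv
  have hconst : ∀ c : k, c ≠ 0 → v.valuation K (algebraMap k K c) = 1 := by
    intro c hc
    have h1 : IsUnit (algebraMap k G.A c) := (isUnit_iff_ne_zero.2 hc).map _
    have h2 : v.valuation K (algebraMap G.A K (algebraMap k G.A c)) = 1 := by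
      rw [HeightOneSpectrum.valuation_of_algebraMap,
        HeightOneSpectrum.intValuation_eq_one_iff_mem_primeCompl]
      intro h3
      exact hP.ne_top (Ideal.eq_top_of_isUnit_mem _ h3 h1)
    exact h2
  have hA0 : f.coeff 1 ≠ 0 := hf.coeff_one_ne hφ
  have hAK : (f.coeff 1 : K) ≠ 0 := fun h => hA0 (Subtype.ext h)
  have hdK : 4 * (f.coeff 1 : K) ^ 3 + 27 * (f.coeff 0 : K) ^ 2 ≠ 0 := fun h => hd0 (Subtype.ext h)
  have h2K : (2 : K) ≠ 0 := by
    have := (_root_.map_ne_zero (algebraMap k K)).2 h2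
    rwa [map_ofNat] at this
  have h3K : (3 : K) ≠ 0 := by
    have := (_root_.map_ne_zero (algebraMap k K)).2 h3
    rwa [map_ofNat] at this
  -- the invariant
  have hj : (curve ((f.coeff 1 : K) * e ^ 2) ((f.coeff 0 : K) * e ^ 3)).c₄ ^ 3 /
      (curve ((f.coeff 1 : K) * e ^ 2) ((f.coeff 0 : K) * e ^ 3)).Δ =
      algebraMap k K 6912 * ((f.coeff 1 : K) ^ 3 /
        (4 * (f.coeff 1 : K) ^ 3 + 27 * (f.coeff 0 : K) ^ 2)) := by
    have e1 : (curve ((f.coeff 1 : K) * e ^ 2) ((f.coeff 0 : K) * e ^ 3)).c₄ =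
        -48 * ((f.coeff 1 : K) * e ^ 2) := by
      simp only [curve, WeierstrassCurve.c₄, WeierstrassCurve.b₂, WeierstrassCurve.b₄]
      ring
    have e2 : (curve ((f.coeff 1 : K) * e ^ 2) ((f.coeff 0 : K) * e ^ 3)).Δ =
        -16 * ((4 * (f.coeff 1 : K) ^ 3 + 27 * (f.coeff 0 : K) ^ 2) * e ^ 6) := by
      simp only [curve, WeierstrassCurve.Δ, WeierstrassCurve.b₂, WeierstrassCurve.b₄,
        WeierstrassCurve.b₆, WeierstrassCurve.b₈]
      ring
    have h16 : (-16 : K) ≠ 0 := by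
      rw [show (-16 : K) = -(2 ^ 4) by norm_num]
      exact neg_ne_zero.2 (pow_ne_zero _ h2K)
    rw [e1, e2, map_ofNat, div_eq_iff (mul_ne_zero h16 (mul_ne_zero hdK (pow_ne_zero _ he))),
      mul_div_assoc', div_mul_eq_mul_div, eq_div_iff hdK]
    ring
  rw [hj]
  have h6912 : (6912 : k) ≠ 0 := by
    rw [show (6912 : k) = 2 ^ 8 * 3 ^ 3 by norm_num]
    exact mul_ne_zero (pow_ne_zero _ h2) (pow_ne_zero _ h3)
  have h27 : (27 : k) ≠ 0 := by
    rw [show (27 : k) = 3 ^ 3 by norm_num]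
    exact pow_ne_zero _ h3
  have h4 : (4 : k) ≠ 0 := by
    rw [show (4 : k) = 2 ^ 2 by norm_num]
    exact pow_ne_zero _ h2
  refine transcendental_of_val (v.valuation K) hconst ?_ ?_
  · exact mul_ne_zero ((_root_.map_ne_zero _).2 h6912) (div_ne_zero (pow_ne_zero _ hAK) hdK)
  rw [map_mul, hconst _ h6912, one_mul, map_div₀, map_pow]
  have hdv : v.valuation K (4 * (f.coeff 1 : K) ^ 3 + 27 * (f.coeff 0 : K) ^ 2) < 1 := by
    have : v.valuation K (algebraMap G.A K (4 * f.coeff 1 ^ 3 + 27 * f.coeff 0 ^ 2)) < 1 := by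
      rw [HeightOneSpectrum.valuation_lt_one_iff_mem]
      exact hdP
    exact this
  have hdv0 : v.valuation K (4 * (f.coeff 1 : K) ^ 3 + 27 * (f.coeff 0 : K) ^ 2) ≠ 0 :=
    (Valuation.ne_zero_iff _).2 hdK
  by_cases hA : f.coeff 1 ∈ P
  · -- a zero of `j`
    have hB2 := hf.coeff_zero_notMem hP hA
    have hB : f.coeff 0 ∈ P := by
      have h27A : (27 : G.A) ∉ P := by
        intro h
        apply hP.ne_top
        apply Ideal.eq_top_of_isUnit_mem _ h
        have := (isUnit_iff_ne_zero.2 h27).map (algebraMap k G.A)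
        rwa [map_ofNat] at this
      have h1 : 27 * f.coeff 0 ^ 2 ∈ P := by
        have : 27 * f.coeff 0 ^ 2 = (4 * f.coeff 1 ^ 3 + 27 * f.coeff 0 ^ 2) -
            4 * f.coeff 1 ^ 2 * f.coeff 1 := by ring
        rw [this]
        exact P.sub_mem hdP (P.mul_mem_left _ hA)
      exact hP.isPrime.mem_of_pow_mem 2 ((hP.isPrime.mem_or_mem h1).resolve_left h27A)
    have hvA : v.valuation K (f.coeff 1 : K) ≤ WithZero.exp (-1 : ℤ) := by
      have h := (HeightOneSpectrum.intValuation_le_pow_iff_mem v (f.coeff 1) 1).2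
        (by rw [pow_one]; exact hA)
      have h' : v.valuation K (algebraMap G.A K (f.coeff 1)) ≤ WithZero.exp (-((1 : ℕ) : ℤ)) := by
        rw [HeightOneSpectrum.valuation_of_algebraMap]
        exact h
      exact_mod_cast h'
    have hvB : v.valuation K (f.coeff 0 : K) = WithZero.exp (-1 : ℤ) := by
      have ha := (HeightOneSpectrum.intValuation_le_pow_iff_mem v (f.coeff 0) 1).2
        (by rw [pow_one]; exact hB)
      have hb := (HeightOneSpectrum.intValuation_le_pow_iff_mem v (f.coeff 0) 2).not.2 hB2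
      have h' : v.intValuation (f.coeff 0) = WithZero.exp (-1 : ℤ) := by
        have h0 : v.intValuation (f.coeff 0) ≠ 0 := by
          intro h00
          apply hb
          rw [h00]
          exact zero_le
        rw [← WithZero.exp_log h0] at ha hb ⊢
        rw [WithZero.exp_le_exp] at ha hb
        congr 1
        push_cast at ha hb
        omega
      have h'' : v.valuation K (algebraMap G.A K (f.coeff 0)) = WithZero.exp (-1 : ℤ) := by
        rw [HeightOneSpectrum.valuation_of_algebraMap]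
        exact h'
      exact h''
    have hv4 : v.valuation K (4 * (f.coeff 1 : K) ^ 3) ≤ WithZero.exp (-3 : ℤ) := by
      have e4 : v.valuation K (4 : K) = 1 := by
        have := hconst 4 h4
        rwa [map_ofNat] at this
      rw [map_mul, e4, one_mul, map_pow]
      calc v.valuation K (f.coeff 1 : K) ^ 3 ≤ WithZero.exp (-1 : ℤ) ^ 3 :=
            pow_le_pow_left' hvA 3
        _ = _ := by rw [← WithZero.exp_nsmul]; norm_num
    have hv27 : v.valuation K (27 * (f.coeff 0 : K) ^ 2) = WithZero.exp (-2 : ℤ) := by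
      have e27 : v.valuation K (27 : K) = 1 := by
        have := hconst 27 h27
        rwa [map_ofNat] at this
      rw [map_mul, e27, one_mul, map_pow, hvB, ← WithZero.exp_nsmul]
      norm_num
    have hvd : v.valuation K (4 * (f.coeff 1 : K) ^ 3 + 27 * (f.coeff 0 : K) ^ 2) =
        WithZero.exp (-2 : ℤ) := by
      rw [Valuation.map_add_eq_of_lt_right, hv27]
      rw [hv27]
      refine lt_of_le_of_lt hv4 ?_
      rw [WithZero.exp_lt_exp]
      norm_num
    rw [hvd]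
    intro h1
    have h2 : v.valuation K (f.coeff 1 : K) ^ 3 = WithZero.exp (-2 : ℤ) := by
      rwa [div_eq_one_iff_eq WithZero.exp_ne_zero] at h1
    have h3 : v.valuation K (f.coeff 1 : K) ^ 3 ≤ WithZero.exp (-3 : ℤ) := by
      calc v.valuation K (f.coeff 1 : K) ^ 3 ≤ WithZero.exp (-1 : ℤ) ^ 3 :=
            pow_le_pow_left' hvA 3
        _ = _ := by rw [← WithZero.exp_nsmul]; norm_num
    rw [h2, WithZero.exp_le_exp] at h3
    norm_num at h3
  · -- a pole of `j`
    have hvA : v.valuation K (f.coeff 1 : K) = 1 := by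
      have : v.valuation K (algebraMap G.A K (f.coeff 1)) = 1 := by
        rw [HeightOneSpectrum.valuation_of_algebraMap,
          HeightOneSpectrum.intValuation_eq_one_iff_mem_primeCompl]
        exact hA
      exact this
    rw [hvA, one_pow, one_div]
    intro h
    rw [inv_eq_one] at h
    exact hdv.ne h

end

end Pool.Agent.GBC
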