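import Pool.Agent.Lib.GBC.J.Alg

/-!
Block J (genus one): the triviality of the `2`-Selmer group in terms of `K[x] / (f)` and Mumford
pairs gives the triviality in terms of `K[θ]` and points.
-/

set_option autoImplicit false

open Polynomial

namespace Pool.Agent.GBC

open Pool.Agent.BSDP Pool.Agent.BSDFF Pool.Agent.HYP

section
variable {F : Type} [Field F] {A B : F}

theorem cub_monic : (cub A B).Monic := by
  unfold cub
  monicity!

theorem cub_natDegree : (cub A B).natDegree = 3 := by
  unfold cub
  compute_degree!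

theorem cub_eval (x : F) : (cub A B).eval x = x ^ 3 + A * x + B := by
  simp [cub]

theorem cub_map {F' : Type} [Field F'] (φ : F →+* F') : (cub A B).map φ = cub (φ A) (φ B) := by
  simp [cub]

private theorem isUnit_of_norm {γ : Cu A B} (h : γ.norm ≠ 0) : IsUnit γ := by
  have h1 := Cu.mul_adj γ
  have h2 : IsUnit (algebraMap F (Cu A B) γ.norm) := (isUnit_iff_ne_zero.2 h).map _
  rw [← h1] at h2
  exact isUnit_of_mul_isUnit_left h2

/-- The image of the points gives the image of the Mumford pairs. -/
theorem image_of_inImage {f : F[X]} (hf : f = cub A B) {c : AdjoinRoot f}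
    (hn : (eCu hf c).norm ≠ 0) (h : InImage (eCu hf c)) : Image f 1 c := by
  have hu : IsUnit c := by
    have := (isUnit_of_norm hn).map (eCu hf).symm
    simpa using this
  rcases h with ⟨s, hs⟩ | ⟨x, y, hy, hxy, s, hs⟩
  · -- a square
    have hc : c = (eCu hf).symm s ^ 2 := by
      apply (eCu hf).injective
      rw [map_pow, AlgEquiv.apply_symm_apply, hs, pow_two]
    have hsu : IsUnit ((eCu hf).symm s) := by
      rw [hc] at hu
      exact (isUnit_pow_iff two_ne_zero).1 hu
    refine ⟨1, 0, ⟨monic_one, by simp, isCoprime_one_left, one_dvd _⟩, (eCu hf).symm s, hsu, ?_⟩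
    rw [natDegree_one, pow_zero, one_mul, map_one, one_mul]
    exact hc
  · have hfx : f.eval x = y ^ 2 := by rw [hf, cub_eval, hxy]
    have hcop : IsCoprime (X - C x) f := by
      rw [(irreducible_X_sub_C x).coprime_iff_not_dvd, dvd_iff_isRoot, IsRoot.def, hfx]
      exact pow_ne_zero _ hy
    -- `x - θ`
    have hx1 : eCu hf (AdjoinRoot.mk f (C x - X)) = xsub x := by
      rw [map_sub, AdjoinRoot.mk_C, AdjoinRoot.mk_X, map_sub, eCu_root]
      have h1 : eCu hf (AdjoinRoot.of f x) = algebraMap F _ x := eCu_of hf x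
      rw [h1]
      ext <;> simp [xsub]
    have hxu : IsUnit (AdjoinRoot.mk f (C x - X)) := by
      have h1 : (xsub x : Cu A B).norm ≠ 0 := by
        have h2 : (xsub x : Cu A B) = Cu.lin A B x 1 := rfl
        rw [h2, Cu.norm_lin, one_pow, one_pow, mul_one, mul_one, ← hxy]
        exact pow_ne_zero _ hy
      have := (isUnit_of_norm h1).map (eCu hf).symm
      rw [← hx1] at this
      simpa using this
    obtain ⟨w, hw⟩ := hxu.exists_right_inv
    have hc : c * AdjoinRoot.mk f (C x - X) = (eCu hf).symm s ^ 2 := by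
      apply (eCu hf).injective
      rw [map_mul, map_pow, AlgEquiv.apply_symm_apply, hx1, hs, pow_two]
    have hc2 : c = AdjoinRoot.mk f (C x - X) * ((eCu hf).symm s * w) ^ 2 := by
      have h3 : c = c * (AdjoinRoot.mk f (C x - X) * w) := by rw [hw, mul_one]
      have h4 : AdjoinRoot.mk f (C x - X) * ((eCu hf).symm s * w) ^ 2 =
          (c * AdjoinRoot.mk f (C x - X)) * w * (AdjoinRoot.mk f (C x - X) * w) := by
        rw [hc]; ring
      rw [h4, hw, mul_one, mul_assoc, hw, mul_one]
    have hsu : IsUnit ((eCu hf).symm s * w) := by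
      rw [hc2] at hu
      exact (isUnit_pow_iff two_ne_zero).1 (isUnit_of_mul_isUnit_right hu)
    refine ⟨X - C x, C y, ⟨monic_X_sub_C x, by simp, hcop, ?_⟩, (eCu hf).symm s * w, hsu, ?_⟩
    · rw [dvd_iff_isRoot, IsRoot.def, eval_sub, eval_pow, eval_C, hfx, sub_self]
    · rw [natDegree_X_sub_C, pow_one]
      conv_lhs => rw [hc2]
      have h5 : AdjoinRoot.mk f (C x - X) = -1 * AdjoinRoot.mk f (X - C x) := by
        rw [← neg_sub, map_neg]
        ring
      rw [h5]

end

/-- From `SelTriv k 1 f` to `SelTwoTrivial k A B`. -/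
theorem selTwoTrivial_of {k K : Type} [Field k] [Field K] [Algebra k K] {f : K[X]} {A B : K}
    (hf : f = cub A B) (h : SelTriv k 1 f) : SelTwoTrivial k A B := by
  rintro γ ⟨n, hn0, hn⟩ hloc
  have hc : ∃ c : AdjoinRoot f, eCu hf c = γ := ⟨(eCu hf).symm γ, by simp⟩
  obtain ⟨c, rfl⟩ := hc
  have hsq : SqNorm c := ⟨n, hn0, by rw [← norm_eCu hf, hn]⟩
  have h1 := h c hsq (fun w => by
    have hf' : f.map w.toCompletion = cub (w.toCompletion A) (w.toCompletion B) := by
      rw [hf, cub_map]
    apply image_of_inImage hf'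
    · rw [eCu_bc w.toCompletion hf hf', Cu.norm_map, hn, map_pow]
      exact pow_ne_zero _ ((_root_.map_ne_zero _).2 hn0)
    · rw [eCu_bc w.toCompletion hf hf']
      exact hloc w)
  exact h1.map (eCu hf)

end Pool.Agent.GBC
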