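import Pool.Agent.Lib.GBC.J.PF
import Pool.Agent.Lib.GBC.J.Sel
import Pool.Agent.Lib.GBC.J.JInv
import Pool.Agent.Lib.BSDK.Main

/-!
Block J (genus one), the conclusion for a twisted member of the family with trivial `2`-Selmer group.
-/

set_option autoImplicit false

open Polynomial Height

namespace Pool.Agent.GBC

open Pool.Agent.BSDP Pool.Agent.BSDFF Pool.Agent.HYP

section
variable {k K : Type} [Field k] [Field K] [Algebra k K] {G : Geo k K} {D : Data G 1}

theorem Fam.fK_eq {m : ℕ} {f : G.A[X]} (hf : Fam D m f) :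
    G.fK f = cub (f.coeff 1 : K) (f.coeff 0 : K) := by
  unfold Geo.fK cub
  conv_lhs => rw [hf.eq_cub]
  simp only [Polynomial.map_add, Polynomial.map_mul, Polynomial.map_pow, map_X, map_C]
  rfl

theorem cub_scaleRoots {F : Type} [Field F] (a b e : F) :
    (cub a b).scaleRoots e = cub (a * e ^ 2) (b * e ^ 3) := by
  have hd : ∀ a b : F, (cub a b).natDegree = 3 := fun a b => cub_natDegree
  have hc : ∀ (a b : F) (i : ℕ), (cub a b).coeff i =
      if i = 3 then 1 else if i = 1 then a else if i = 0 then b else 0 := by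
    intro a b i
    unfold cub
    simp only [coeff_add, coeff_X_pow, coeff_C_mul, coeff_X, coeff_C]
    by_cases h3 : i = 3
    · subst h3; simp
    · by_cases h1 : i = 1
      · subst h1; simp
      · by_cases h0 : i = 0
        · subst h0; simp
        · have h1' : ¬ (1 = i) := fun h => h1 h.symm
          simp [h3, h1', h0, h1]
  ext i
  rw [coeff_scaleRoots, hd, hc, hc]
  by_cases h3 : i = 3
  · subst h3; simp
  · by_cases h1 : i = 1
    · subst h1; simp
    · by_cases h0 : i = 0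
      · subst h0; simp
      · simp [h3, h1, h0]

theorem cub_coeff_one {F : Type} [Field F] (a b : F) : (cub a b).coeff 1 = a := by
  unfold cub
  simp only [coeff_add, coeff_X_pow, coeff_C_mul, coeff_X, coeff_C]
  simp

theorem cub_coeff_zero {F : Type} [Field F] (a b : F) : (cub a b).coeff 0 = b := by
  unfold cub
  simp only [coeff_add, coeff_X_pow, coeff_C_mul, coeff_X, coeff_C]
  simp

/-- A member of the family has no root in `K`. -/
theorem Fam.noroot {m : ℕ} {f : G.A[X]} (hf : Fam D m f) (y : K) :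
    y ^ 3 + (f.coeff 1 : K) * y + (f.coeff 0 : K) ≠ 0 := by
  intro h
  obtain ⟨b1, hb1⟩ := hf.lead_eq (j := 1) (by norm_num)
  obtain ⟨b0, hb0⟩ := hf.lead_eq (j := 0) (by norm_num)
  have e1 : 2 * m * (3 - 1) = 4 * m := by omega
  have e0 : 2 * m * (3 - 0) = 6 * m := by omega
  rw [e1] at hb1
  rw [e0] at hb0
  set c1 : G.B := D.φ.coeff 1 + G.ti * b1 with hc1
  set c0 : G.B := D.φ.coeff 0 + G.ti * b0 with hc0
  have hb1' : (f.coeff 1 : K) = G.t ^ (4 * m) * (c1 : K) := hb1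
  have hb0' : (f.coeff 0 : K) = G.t ^ (6 * m) * (c0 : K) := hb0
  have ht : G.t ^ (2 * m) ≠ 0 := pow_ne_zero _ G.t_ne
  obtain ⟨z, hz⟩ : ∃ z : K, z = y / G.t ^ (2 * m) := ⟨_, rfl⟩
  have hy : y = G.t ^ (2 * m) * z := by rw [hz, mul_div_cancel₀ _ ht]
  have hz3 : z ^ 3 + (c1 : K) * z + (c0 : K) = 0 := by
    have ht6 : G.t ^ (6 * m) ≠ 0 := pow_ne_zero _ G.t_ne
    apply mul_left_cancel₀ ht6
    rw [mul_zero, ← h, hy, hb1', hb0']
    ring
  -- `z` is integral over `B`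
  have hint : IsIntegral G.B z := by
    refine ⟨X ^ 3 + C c1 * X + C c0, ?_, ?_⟩
    · monicity!
    · simp only [eval₂_add, eval₂_pow, eval₂_mul, eval₂_X, eval₂_C]
      exact hz3
  obtain ⟨w, hw⟩ := IsIntegrallyClosed.isIntegral_iff.1 hint
  have hw3 : w ^ 3 + c1 * w + c0 = 0 := by
    apply Subtype.ext
    change (w : K) ^ 3 + (c1 : K) * (w : K) + (c0 : K) = 0
    have : (w : K) = z := hw
    rw [this]
    exact hz3
  obtain ⟨𝔪, h𝔪⟩ := Ideal.exists_maximal G.B
  let _ := Ideal.Quotient.field 𝔪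
  have hti : Ideal.Quotient.mk 𝔪 G.ti = 0 := Ideal.Quotient.eq_zero_iff_mem.2 (G.rad 𝔪 h𝔪)
  have h0 := congrArg (Ideal.Quotient.mk 𝔪) hw3
  rw [hc1, hc0] at h0
  simp only [map_add, map_mul, map_pow, hti, zero_mul, add_zero, map_zero] at h0
  have hirr := D.irr 𝔪 h𝔪
  have heq : D.φ.map (Ideal.Quotient.mk 𝔪) = X ^ 3 + C (Ideal.Quotient.mk 𝔪 (D.φ.coeff 1)) * X +
      C (Ideal.Quotient.mk 𝔪 (D.φ.coeff 0)) := by
    conv_lhs => rw [Data.eq_cub (D := D)]
    simp
  have hroot : (D.φ.map (Ideal.Quotient.mk 𝔪)).IsRoot (Ideal.Quotient.mk 𝔪 w) := by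
    rw [heq, IsRoot.def]
    simpa using h0
  have hdeg : (D.φ.map (Ideal.Quotient.mk 𝔪)).natDegree = 3 := by
    rw [D.monic.natDegree_map, D.deg]
  have h1 := Polynomial.degree_eq_one_of_irreducible_of_root hirr hroot
  rw [degree_eq_natDegree hirr.ne_zero, hdeg] at h1
  norm_num at h1

/-- The `j`-invariant of `y ^ 2 = x ^ 3 + A x + B`. -/
noncomputable def jinv {F : Type} [Field F] (A B : F) : F := (curve A B).c₄ ^ 3 / (curve A B).Δ

/-- **The conclusion in genus one.** -/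
theorem trivialSelmer_twist [Finite k] [Algebra (RatFunc k) K] [IsScalarTower k (RatFunc k) K]
    [FiniteDimensional (RatFunc k) K] (h2 : (2 : k) ≠ 0) (h3 : (3 : k) ≠ 0)
    (hφ : ∃ 𝔪 : Ideal G.B, 𝔪.IsMaximal ∧ D.φ.coeff 1 ∉ 𝔪) {m : ℕ} (hm : 1 ≤ m) {f : G.A[X]}
    (hf : Fam D m f) {e : K} (he : e ≠ 0) (hsel : SelTriv k 1 ((G.fK f).scaleRoots e)) :
    TrivialSelmer k (((G.fK f).scaleRoots e).coeff 1) (((G.fK f).scaleRoots e).coeff 0) ∧
      Transcendental k (jinv (((G.fK f).scaleRoots e).coeff 1)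
        (((G.fK f).scaleRoots e).coeff 0)) := by
  have hA := G.hfqA
  have hB := G.hfqB
  have hiA := G.infinite_A
  have hiB := G.infinite_B
  let _ := G.pf.adm
  have := G.pf.northcott_log
  have hs : (G.fK f).scaleRoots e = cub ((f.coeff 1 : K) * e ^ 2) ((f.coeff 0 : K) * e ^ 3) := by
    rw [hf.fK_eq, cub_scaleRoots]
  have c1 : ((G.fK f).scaleRoots e).coeff 1 = (f.coeff 1 : K) * e ^ 2 := by
    rw [hs, cub_coeff_one]
  have c0 : ((G.fK f).scaleRoots e).coeff 0 = (f.coeff 0 : K) * e ^ 3 := by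
    rw [hs, cub_coeff_zero]
  rw [c1, c0]
  have hj := hf.j_transcendental h2 h3 hφ hm he
  have hd := (hf.disc_nonunit h3 hm).1
  have hdK : 4 * (f.coeff 1 : K) ^ 3 + 27 * (f.coeff 0 : K) ^ 2 ≠ 0 := fun h => hd (Subtype.ext h)
  have hD : 4 * ((f.coeff 1 : K) * e ^ 2) ^ 3 + 27 * ((f.coeff 0 : K) * e ^ 3) ^ 2 ≠ 0 := by
    have : 4 * ((f.coeff 1 : K) * e ^ 2) ^ 3 + 27 * ((f.coeff 0 : K) * e ^ 3) ^ 2 =
        (4 * (f.coeff 1 : K) ^ 3 + 27 * (f.coeff 0 : K) ^ 2) * e ^ 6 := by ring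
    rw [this]
    exact mul_ne_zero hdK (pow_ne_zero _ he)
  refine ⟨BSDK.trivialSelmer_of h2 h3 hD (selTwoTrivial_of hs hsel)
    (BSDK.norm_ne_zero_of_noroot ?_) ?_, hj⟩
  · intro x h
    apply hf.noroot (x / e)
    have he3 : e ^ 3 ≠ 0 := pow_ne_zero _ he
    apply mul_left_cancel₀ he3
    rw [mul_zero, ← h]
    field_simp
  · intro c hc
    apply hj
    have hΔ : (curve ((f.coeff 1 : K) * e ^ 2) ((f.coeff 0 : K) * e ^ 3)).Δ ≠ 0 := by
      rw [curve_disc]
      refine mul_ne_zero ?_ hD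
      have h : (2 : K) ≠ 0 := by
        have := (_root_.map_ne_zero (algebraMap k K)).2 h2
        rwa [map_ofNat] at this
      rw [show (-16 : K) = -(2 ^ 4) by norm_num]
      exact neg_ne_zero.2 (pow_ne_zero _ h)
    rw [hc, mul_div_assoc, div_self hΔ, mul_one]
    exact isAlgebraic_algebraMap c

end

end Pool.Agent.GBC
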