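import Pool.Agent.Lib.GBC.Def
import Pool.Agent.Lib.BSDP.Stmt

/-!
Block J (genus one): `K[x] / (x ^ 3 + A x + B)` as the algebra `Cu A B`, and the comparison of the
two forms of the triviality of the `2`-Selmer group.
-/

set_option autoImplicit false

open Polynomial

namespace Pool.Agent.GBC

open Pool.Agent.BSDP Pool.Agent.BSDFF Pool.Agent.HYP

/-- `x ^ 3 + A x + B` -/
noncomputable def cub {F : Type} [Field F] (A B : F) : F[X] := X ^ 3 + C A * X + C B

section
variable {F : Type} [Field F] {A B : F}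

theorem th_root : eval₂ (algebraMap F (Cu A B)) (Cu.th A B) (cub A B) = 0 := by
  unfold cub
  simp only [eval₂_add, eval₂_pow, eval₂_mul, eval₂_C, eval₂_X]
  ext <;> simp [pow_succ, Cu.mul_x, Cu.mul_y, Cu.mul_z]

/-- `K[x] / (f) → K[θ]` -/
noncomputable def toCu {f : F[X]} (hf : f = cub A B) : AdjoinRoot f →ₐ[F] Cu A B :=
  AdjoinRoot.liftAlgHom f (Algebra.ofId F (Cu A B)) (Cu.th A B) (by
    rw [hf]
    exact th_root)

theorem toCu_root {f : F[X]} (hf : f = cub A B) : toCu hf (AdjoinRoot.root f) = Cu.th A B := by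
  unfold toCu
  exact AdjoinRoot.liftAlgHom_root ..

theorem root_cub {f : F[X]} (hf : f = cub A B) :
    (AdjoinRoot.root f) ^ 3 = -(algebraMap F _ A * AdjoinRoot.root f) - algebraMap F _ B := by
  have h := AdjoinRoot.eval₂_root f
  have h2 : eval₂ (AdjoinRoot.of f) (AdjoinRoot.root f) (cub A B) = 0 := by rw [← hf]; exact h
  unfold cub at h2
  simp only [eval₂_add, eval₂_pow, eval₂_mul, eval₂_C, eval₂_X] at h2
  have h3 : ∀ a : F, algebraMap F (AdjoinRoot f) a = AdjoinRoot.of f a := fun a => rfl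
  rw [h3, h3]
  linear_combination h2

/-- `K[θ] → K[x] / (f)` -/
noncomputable def ofCu {f : F[X]} (hf : f = cub A B) : Cu A B →ₐ[F] AdjoinRoot f where
  toFun u := algebraMap F _ u.x + algebraMap F _ u.y * AdjoinRoot.root f +
    algebraMap F _ u.z * AdjoinRoot.root f ^ 2
  map_one' := by simp
  map_zero' := by simp
  map_add' u v := by
    simp only [Cu.add_x, Cu.add_y, Cu.add_z, map_add]
    ring
  map_mul' u v := by
    have h := root_cub hf
    simp only [Cu.mul_x, Cu.mul_y, Cu.mul_z, map_add, map_sub, map_mul]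
    linear_combination (-(algebraMap F _ u.y * algebraMap F _ v.z + algebraMap F _ u.z *
      algebraMap F _ v.y) - algebraMap F _ u.z * algebraMap F _ v.z * AdjoinRoot.root f) * h
  commutes' a := by simp

/-- `K[x] / (f) = K[θ]` -/
noncomputable def eCu {f : F[X]} (hf : f = cub A B) : AdjoinRoot f ≃ₐ[F] Cu A B :=
  AlgEquiv.ofAlgHom (toCu hf) (ofCu hf)
    (by
      apply AlgHom.ext
      intro u
      change toCu hf (algebraMap F _ u.x + algebraMap F _ u.y * AdjoinRoot.root f +
        algebraMap F _ u.z * AdjoinRoot.root f ^ 2) = u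
      simp only [map_add, map_mul, map_pow, toCu_root, AlgHom.commutes]
      ext <;> simp [pow_succ, Cu.mul_x, Cu.mul_y, Cu.mul_z])
    (by
      apply AdjoinRoot.algHom_ext
      rw [AlgHom.comp_apply, toCu_root]
      change algebraMap F _ (Cu.th A B).x + algebraMap F _ (Cu.th A B).y * AdjoinRoot.root f +
        algebraMap F _ (Cu.th A B).z * AdjoinRoot.root f ^ 2 = _
      simp)

theorem eCu_root {f : F[X]} (hf : f = cub A B) : eCu hf (AdjoinRoot.root f) = Cu.th A B :=
  toCu_root hf

theorem eCu_of {f : F[X]} (hf : f = cub A B) (a : F) :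
    eCu hf (algebraMap F _ a) = algebraMap F _ a := (eCu hf).commutes a

/-- the linear equivalence with `F ^ 3` -/
def cuFun : Cu A B ≃ₗ[F] (Fin 3 → F) where
  toFun u := ![u.x, u.y, u.z]
  invFun v := ⟨v 0, v 1, v 2⟩
  left_inv u := by ext <;> rfl
  right_inv v := by
    ext i
    fin_cases i <;> rfl
  map_add' u v := by
    ext i
    fin_cases i <;> rfl
  map_smul' a v := by
    ext i
    fin_cases i <;> rfl

theorem norm_cu (u : Cu A B) : Algebra.norm F u = u.norm := by
  let b : Module.Basis (Fin 3) F (Cu A B) := Module.Basis.ofEquivFun cuFun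
  rw [Algebra.norm_eq_matrix_det b]
  have hb0 : b 0 = ⟨1, 0, 0⟩ := by
    rw [Module.Basis.coe_ofEquivFun]
    ext <;> simp [cuFun]
  have hb1 : b 1 = ⟨0, 1, 0⟩ := by
    rw [Module.Basis.coe_ofEquivFun]
    ext <;> simp [cuFun]
  have hb2 : b 2 = ⟨0, 0, 1⟩ := by
    rw [Module.Basis.coe_ofEquivFun]
    ext <;> simp [cuFun]
  have hr : ∀ (v : Cu A B) (i : Fin 3), b.repr v i = ![v.x, v.y, v.z] i := by
    intro v i
    rw [Module.Basis.ofEquivFun_repr_apply]
    rfl
  rw [Matrix.det_fin_three]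
  simp only [Algebra.leftMulMatrix_eq_repr_mul, hb0, hb1, hb2, hr, Cu.mul_x, Cu.mul_y, Cu.mul_z,
    Matrix.cons_val_zero, Matrix.cons_val_one, Matrix.cons_val, Cu.norm]
  ring

theorem norm_eCu {f : F[X]} (hf : f = cub A B) (c : AdjoinRoot f) :
    (eCu hf c).norm = Algebra.norm F c := by
  rw [← norm_cu, Algebra.norm_eq_of_algEquiv]

/-- Base change. -/
theorem eCu_bc {F' : Type} [Field F'] (φ : F →+* F') {f : F[X]} (hf : f = cub A B)
    (hf' : f.map φ = cub (φ A) (φ B)) (c : AdjoinRoot f) :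
    eCu hf' (bc φ f c) = Cu.map φ (eCu hf c) := by
  have h : ((eCu hf' : AdjoinRoot (f.map φ) ≃+* Cu (φ A) (φ B)) : AdjoinRoot (f.map φ) →+*
      Cu (φ A) (φ B)).comp (bc φ f) =
      (Cu.map φ).comp ((eCu hf : AdjoinRoot f ≃+* Cu A B) : AdjoinRoot f →+* Cu A B) := by
    apply AdjoinRoot.ringHom_ext
    · apply RingHom.ext
      intro a
      simp only [RingHom.comp_apply]
      have h1 : bc φ f (AdjoinRoot.of f a) = algebraMap F' _ (φ a) := by
        unfold bc
        rw [AdjoinRoot.map_of]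
        rfl
      rw [h1]
      have h2 : (eCu hf) (AdjoinRoot.of f a) = algebraMap F _ a := eCu_of hf a
      change eCu hf' (algebraMap F' _ (φ a)) = Cu.map φ (eCu hf (AdjoinRoot.of f a))
      rw [eCu_of, h2]
      ext <;> simp
    · simp only [RingHom.comp_apply]
      have h1 : bc φ f (AdjoinRoot.root f) = AdjoinRoot.root (f.map φ) := by
        unfold bc
        rw [AdjoinRoot.map_root]
      rw [h1]
      change eCu hf' (AdjoinRoot.root (f.map φ)) = Cu.map φ (eCu hf (AdjoinRoot.root f))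
      rw [eCu_root, eCu_root]
      ext <;> simp
  exact DFunLike.congr_fun h c

end

end Pool.Agent.GBC
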