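import Pool.Agent.Lib.GBC.J.PF
import Pool.Agent.Lib.GBC.J.JInv

/-!
Block J (genus one). The local conditions: `φ = x ^ 3 - x + b` is irreducible modulo all maximal
ideals of `B`, `f₀ = x ^ 3 - x + b₀` modulo all maximal ideals which contain `N`.
-/

set_option autoImplicit false

open Polynomial IsDedekindDomain

namespace Pool.Agent.GBC

open Pool.Agent.BSDP Pool.Agent.BSDFF Pool.Agent.HYP

/-- Over a finite field there is an irreducible cubic `x ^ 3 - x + b`. -/
theorem exists_irr_cubic (F : Type) [Field F] [Finite F] :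
    ∃ b : F, Irreducible (X ^ 3 - X + C b : F[X]) := by
  by_contra hcon
  push Not at hcon
  have hsurj : Function.Surjective (fun x : F => x ^ 3 - x) := by
    intro y
    have hm : (X ^ 3 - X + C (-y) : F[X]).Monic := by monicity!
    have hd : (X ^ 3 - X + C (-y) : F[X]).natDegree = 3 := by compute_degree!
    have h1 := hcon (-y)
    rw [hm.irreducible_iff_roots_eq_zero_of_degree_le_three (by omega) (by omega)] at h1
    obtain ⟨x, hx⟩ := Multiset.exists_mem_of_ne_zero h1
    have hr := (mem_roots hm.ne_zero).1 hx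
    refine ⟨x, ?_⟩
    have h2 : x ^ 3 - x + -y = 0 := by simpa [IsRoot.def] using hr
    simp only
    linear_combination h2
  have hinj := Finite.injective_iff_surjective.2 hsurj
  have h01 : (0 : F) = 1 := hinj (by simp)
  exact zero_ne_one h01

/-- The same for finitely many maximal ideals. -/
theorem exists_irr_cubic_ring {R : Type} [CommRing R] (S : Set (Ideal R)) (hS : S.Finite)
    (hmax : ∀ P ∈ S, P.IsMaximal) (hfin : ∀ P ∈ S, Finite (R ⧸ P)) :
    ∃ b : R, ∀ P ∈ S, Irreducible ((X ^ 3 - X + C b : R[X]).map (Ideal.Quotient.mk P)) := by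
  have : Finite S := hS.to_subtype
  have hb : ∀ P : S, ∃ b : R ⧸ P.1, Irreducible (X ^ 3 - X + C b : (R ⧸ P.1)[X]) := by
    intro P
    have := hmax P.1 P.2
    have := hfin P.1 P.2
    let _ := Ideal.Quotient.field P.1
    exact exists_irr_cubic (R ⧸ P.1)
  choose b hb using hb
  have hcop : Pairwise (fun P Q : S => IsCoprime P.1 Q.1) := by
    intro P Q hPQ
    have hP := hmax P.1 P.2
    have hQ := hmax Q.1 Q.2
    rw [Ideal.isCoprime_iff_sup_eq]
    exact hP.coprime_of_ne hQ (fun h => hPQ (Subtype.ext h))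
  obtain ⟨r, hr⟩ := Ideal.pi_quotient_surjective (I := fun P : S => P.1) hcop b
  refine ⟨r, fun P hP => ?_⟩
  have h1 := hb ⟨P, hP⟩
  have h2 : ((X ^ 3 - X + C r : R[X]).map (Ideal.Quotient.mk P)) = X ^ 3 - X + C (b ⟨P, hP⟩) := by
    rw [← hr ⟨P, hP⟩]
    simp
  rw [h2]
  exact h1

section
variable {k K : Type} [Field k] [Finite k] [Field K] [Algebra k K]

theorem finite_maximal_of_le {R : Type} [CommRing R] [IsDedekindDomain R] (N : Ideal R)
    (hN : N ≠ ⊥) : {P : Ideal R | P.IsMaximal ∧ N ≤ P}.Finite := by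
  have h1 := Ideal.finite_factors (R := R) (I := N) hN
  refine (h1.image (fun v : HeightOneSpectrum R => v.asIdeal)).subset ?_
  rintro P ⟨hP, hNP⟩
  have hPb : P ≠ ⊥ := by
    rintro rfl
    exact hN (le_bot_iff.1 hNP)
  exact ⟨⟨P, hP.isPrime, hPb⟩, Ideal.dvd_iff_le.2 hNP, rfl⟩

/-- Data in genus one with any conductor and with `φ.coeff 1 = -1`. -/
theorem exists_data_one (G : Geo k K) (N : Ideal G.A) (hN : N ≠ ⊥) (hrad : N.IsRadical) :
    ∃ D : Data G 1, D.N = N ∧ D.φ.coeff 1 = -1 := by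
  have hA := G.hfqA
  have hB := G.hfqB
  obtain ⟨b, hb⟩ := exists_irr_cubic_ring (R := G.B)
    {P : Ideal G.B | P.IsMaximal ∧ Ideal.span {G.ti} ≤ P}
    (finite_maximal_of_le _ (by simpa using G.jti_ne)) (fun P hP => hP.1)
    (fun P hP => hB.finiteQuotient (by
      rintro rfl
      have := le_bot_iff.1 hP.2
      exact G.jti_ne (by simpa using this)))
  obtain ⟨b₀, hb₀⟩ := exists_irr_cubic_ring (R := G.A) {P : Ideal G.A | P.IsMaximal ∧ N ≤ P}
    (finite_maximal_of_le _ hN) (fun P hP => hP.1) (fun P hP => hA.finiteQuotient (by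
      rintro rfl
      exact hN (le_bot_iff.1 hP.2)))
  have hm : ∀ {R : Type} [CommRing R] [Nontrivial R] (b : R), (X ^ 3 - X + C b : R[X]).Monic := by
    intro R _ _ b
    monicity!
  have hd : ∀ {R : Type} [CommRing R] [Nontrivial R] (b : R),
      (X ^ 3 - X + C b : R[X]).natDegree = 3 := by
    intro R _ _ b
    compute_degree!
  have hc2 : ∀ {R : Type} [CommRing R] (b : R), (X ^ 3 - X + C b : R[X]).coeff 2 = 0 := by
    intro R _ b
    simp [coeff_X, coeff_X_pow]
  refine ⟨{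
    φ := X ^ 3 - X + C b
    monic := hm b
    deg := hd b
    tr := hc2 b
    irr := fun P hP => hb P ⟨hP, by
      rw [Ideal.span_singleton_le_iff_mem]
      exact G.rad P hP⟩
    N := N
    N_ne := hN
    rad := hrad
    f₀ := X ^ 3 - X + C b₀
    monic₀ := hm b₀
    deg₀ := hd b₀
    tr₀ := hc2 b₀
    irr₀ := fun P hP hNP => hb₀ P ⟨hP, hNP⟩ }, rfl, ?_⟩
  simp [coeff_X, coeff_X_pow]

omit [Finite k] in
/-- The condition on the leading form holds. -/
theorem coeff_one_notMem {G : Geo k K} {D : Data G 1} (h : D.φ.coeff 1 = -1) :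
    ∃ 𝔪 : Ideal G.B, 𝔪.IsMaximal ∧ D.φ.coeff 1 ∉ 𝔪 := by
  obtain ⟨𝔪, h𝔪⟩ := Ideal.exists_maximal G.B
  refine ⟨𝔪, h𝔪, ?_⟩
  rw [h]
  intro h1
  exact h𝔪.ne_top (Ideal.eq_top_of_isUnit_mem _ h1 isUnit_one.neg)

end

end Pool.Agent.GBC
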