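import Pool.Agent.Lib.GBC.Q.Deg
import Pool.Agent.Lib.BSDK.North

/-!
Block J. The product formula as an equality, `dim A / (a) + dim B / (t ^ (-y) a) = d y` for
`a ∈ A ∩ t ^ y B` different from zero, and the heights on `K` (`BSDK.PF`).
-/

set_option autoImplicit false

open IsDedekindDomain

namespace Pool.Agent.GBC.Geo

open Pool.Agent.BSDP Pool.Agent.BSDFF Pool.Agent.HYP

section lin

variable {k V : Type} [Field k] [AddCommGroup V] [Module k V]

private theorem jpf_rel_fin {P P' P'' : Submodule k V} (h : P ≤ P')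
    (hf : Module.Finite k (Rel P P'')) : Module.Finite k (Rel P' P'') := by
  have h' : P.submoduleOf P'' ≤ P'.submoduleOf P'' := fun x hx => h hx
  exact Module.Finite.of_surjective (Submodule.factor h') (Submodule.factor_surjective h')

private theorem jpf_fin_rel {P' P M : Submodule k V} (h : P' ≤ P)
    (hs : Module.Finite k (V ⧸ (P' ⊔ M))) (hi : Module.Finite k (P ⊓ M : Submodule k V)) :
    Module.Finite k (Rel P' P) := by
  let f : Rel P' P →ₗ[k] (V ⧸ (P' ⊔ M)) :=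
    Submodule.mapQ (P'.submoduleOf P) (P' ⊔ M) P.subtype
      (fun x hx => Submodule.mem_sup_left (show (x : V) ∈ P' from hx))
  let g : (P ⊓ M : Submodule k V) →ₗ[k] Rel P' P :=
    (Submodule.mkQ (P'.submoduleOf P)).comp (Submodule.inclusion inf_le_left)
  have hker : LinearMap.ker f ≤ LinearMap.range g := by
    intro x hx
    obtain ⟨x, rfl⟩ := Submodule.Quotient.mk_surjective _ x
    have hx1 : f (Submodule.Quotient.mk x) = 0 := hx
    have hx2 : (x : V) ∈ P' ⊔ M := by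
      have : (Submodule.Quotient.mk (x : V) : V ⧸ (P' ⊔ M)) = 0 := hx1
      exact (Submodule.Quotient.mk_eq_zero _).mp this
    obtain ⟨p, hp, m, hm, hpm⟩ := Submodule.mem_sup.mp hx2
    have hmP : m ∈ P := by
      have : m = (x : V) - p := by rw [← hpm]; abel
      rw [this]
      exact P.sub_mem x.2 (h hp)
    refine ⟨⟨m, hmP, hm⟩, ?_⟩
    change (Submodule.Quotient.mk (⟨m, hmP⟩ : P) : Rel P' P) = Submodule.Quotient.mk x
    rw [Submodule.Quotient.eq]
    change m - (x : V) ∈ P'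
    have : m - (x : V) = -p := by rw [← hpm]; abel
    rw [this]
    exact P'.neg_mem hp
  have h1 : Module.Finite k (LinearMap.range g) := inferInstance
  have h2 : Module.Finite k (LinearMap.ker f) :=
    Module.Finite.of_injective (Submodule.inclusion hker) (Submodule.inclusion_injective hker)
  have h3 : Module.Finite k (LinearMap.range f) := inferInstance
  have h4 : Module.Finite k (Rel P' P ⧸ LinearMap.ker f) :=
    Module.Finite.equiv f.quotKerEquivRange.symm
  exact Module.Finite.of_submodule_quotient (LinearMap.ker f)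

end lin

variable {k K : Type} [Field k] [Field K] [Algebra k K] (G : Geo k K)

/-- Multiplication by `a`. -/
private noncomputable def jpfE (a : K) (h : a ≠ 0) : K ≃ₗ[k] K :=
  LinearEquiv.ofBijective (LinearMap.mulLeft k a)
    ⟨fun _ _ hxy => mul_left_cancel₀ h hxy, fun y => ⟨a⁻¹ * y, mul_inv_cancel_left₀ h y⟩⟩

private theorem jpf_E_apply (a : K) (h : a ≠ 0) (x : K) : (jpfE (k := k) a h) x = a * x := rfl

private theorem jpf_mem_map (a : K) (h : a ≠ 0) (P : Submodule k K) (x : K) :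
    x ∈ P.map ((jpfE (k := k) a h : K ≃ₗ[k] K) : K →ₗ[k] K) ↔ ∃ y ∈ P, a * y = x := by
  simp only [Submodule.mem_map]
  rfl

private theorem jpf_map_le (a : G.A) (h : (a : K) ≠ 0) :
    (G.A.toSubmodule).map ((jpfE (k := k) (a : K) h : K ≃ₗ[k] K) : K →ₗ[k] K) ≤
      G.A.toSubmodule := by
  intro x hx
  obtain ⟨y, hy, rfl⟩ := (jpf_mem_map _ h _ x).mp hx
  exact G.A.mul_mem a.2 hy

private theorem jpf_M_le (a : K) (h : a ≠ 0) {y : ℤ} (hy : a ∈ G.M y) :
    (G.M 0).map ((jpfE (k := k) a h : K ≃ₗ[k] K) : K →ₗ[k] K) ≤ G.M y := by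
  intro x hx
  obtain ⟨z, hz, rfl⟩ := (jpf_mem_map _ h _ x).mp hx
  have := G.mul_mem_M hy hz
  rwa [add_zero] at this

private theorem jpf_M_fin (a : K) (h : a ≠ 0) {y : ℤ} :
    Module.Finite k
      (Rel ((G.M 0).map ((jpfE (k := k) a h : K ≃ₗ[k] K) : K →ₗ[k] K)) (G.M y)) := by
  obtain ⟨n, hn⟩ := G.exists_mem_M a⁻¹
  obtain ⟨z, hz1, hz2⟩ : ∃ z : ℤ, z ≤ -(n : ℤ) ∧ z ≤ y := ⟨min (-(n : ℤ)) y, min_le_left _ _,
    min_le_right _ _⟩
  refine jpf_rel_fin (P := G.M z) ?_ (G.fin_M hz2)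
  intro x hx
  rw [jpf_mem_map]
  refine ⟨a⁻¹ * x, ?_, mul_inv_cancel_left₀ h x⟩
  have h1 := G.mul_mem_M hn (G.M_mono hz1 hx)
  rwa [add_neg_cancel] at h1

private theorem jpf_chiFin1 (a : K) (h : a ≠ 0) :
    ChiFin ((G.A.toSubmodule).map ((jpfE (k := k) a h : K ≃ₗ[k] K) : K →ₗ[k] K))
      ((G.M 0).map ((jpfE (k := k) a h : K ≃ₗ[k] K) : K →ₗ[k] K)) :=
  (chi_map _ _ _).1.mpr (G.chiFin 0)

private theorem jpf_chiFin2 (a : K) (h : a ≠ 0) {y : ℤ} (hy : a ∈ G.M y) :
    ChiFin ((G.A.toSubmodule).map ((jpfE (k := k) a h : K ≃ₗ[k] K) : K →ₗ[k] K)) (G.M y) :=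
  chiFin_comm.mp ((chi_left (G.jpf_M_le a h hy) (G.jpf_M_fin a h)).1.mp
    (chiFin_comm.mp (G.jpf_chiFin1 a h)))

private theorem jpf_rel_A (a : G.A) (h : (a : K) ≠ 0) :
    Module.Finite k (Rel ((G.A.toSubmodule).map
      ((jpfE (k := k) (a : K) h : K ≃ₗ[k] K) : K →ₗ[k] K)) G.A.toSubmodule) := by
  obtain ⟨n, hn⟩ := G.exists_mem_M (a : K)
  exact jpf_fin_rel (G.jpf_map_le a h) (G.jpf_chiFin2 (a : K) h hn).sup (G.chiFin n).inf

/-- `A / (a)` -/
private noncomputable def jpfEquiv (a : G.A) (h : (a : K) ≠ 0) :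
    Rel ((G.A.toSubmodule).map
      ((jpfE (k := k) (a : K) h : K ≃ₗ[k] K) : K →ₗ[k] K)) G.A.toSubmodule ≃ₗ[k]
      (G.A ⧸ Ideal.span {a}) :=
  let f : ↥(Subalgebra.toSubmodule G.A) →ₗ[k] (G.A ⧸ Ideal.span {a}) :=
    (Ideal.Quotient.mkₐ k (Ideal.span {a})).toLinearMap.comp
      (G.A.toSubmoduleEquiv : ↥(Subalgebra.toSubmodule G.A) →ₗ[k] G.A)
  have hf : Function.Surjective f := by
    intro x
    obtain ⟨x, rfl⟩ := Ideal.Quotient.mk_surjective x
    exact ⟨⟨(x : K), x.2⟩, rfl⟩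
  have hk : ((G.A.toSubmodule).map
      ((jpfE (k := k) (a : K) h : K ≃ₗ[k] K) : K →ₗ[k] K)).submoduleOf G.A.toSubmodule =
      LinearMap.ker f := by
    ext x
    rw [LinearMap.mem_ker]
    change (x : K) ∈ (G.A.toSubmodule).map
      ((jpfE (k := k) (a : K) h : K ≃ₗ[k] K) : K →ₗ[k] K) ↔
      Ideal.Quotient.mk (Ideal.span {a}) ⟨(x : K), x.2⟩ = 0
    rw [jpf_mem_map, Ideal.Quotient.eq_zero_iff_mem, Ideal.mem_span_singleton']
    constructor
    · rintro ⟨y, hy, hyx⟩
      refine ⟨⟨y, hy⟩, Subtype.ext ?_⟩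
      change y * (a : K) = x
      rw [mul_comm, hyx]
    · rintro ⟨y, hy⟩
      refine ⟨(y : K), y.2, ?_⟩
      have := congrArg (Subtype.val) hy
      change (y : K) * (a : K) = x at this
      rw [mul_comm, this]
  (Submodule.quotEquivOfEq _ _ hk).trans (f.quotKerEquivOfSurjective hf)

private theorem jpf_fin_span (a : G.A) (h : (a : K) ≠ 0) :
    Module.Finite k (G.A ⧸ Ideal.span {a}) := by
  have := G.jpf_rel_A a h
  exact Module.Finite.equiv (G.jpfEquiv a h)


/-- `B / (z)` for `a = t ^ y z`. -/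
private noncomputable def jpfEquivB (a : K) (h : a ≠ 0) {y : ℤ} (z : G.B)
    (hz : G.t ^ (-y) * a = (z : K)) :
    Rel ((G.M 0).map ((jpfE (k := k) a h : K ≃ₗ[k] K) : K →ₗ[k] K)) (G.M y) ≃ₗ[k]
      (G.B ⧸ Ideal.span {z}) :=
  let f : ↥(G.M y) →ₗ[k] (G.B ⧸ Ideal.span {z}) :=
    (Ideal.Quotient.mkₐ k (Ideal.span {z})).toLinearMap.comp
      ({ toFun := fun x => (⟨G.t ^ (-y) * (x : K), x.2⟩ : G.B)
         map_add' := fun x x' => Subtype.ext (mul_add _ _ _)
         map_smul' := fun c x => Subtype.ext (mul_smul_comm _ _ _) } : ↥(G.M y) →ₗ[k] G.B)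
  have ht : G.t ^ (-y) ≠ 0 := zpow_ne_zero _ G.t_ne
  have hf : Function.Surjective f := by
    intro x
    obtain ⟨x, rfl⟩ := Ideal.Quotient.mk_surjective x
    have e : G.t ^ (-y) * ((G.t ^ (-y))⁻¹ * (x : K)) = x := mul_inv_cancel_left₀ ht _
    refine ⟨⟨(G.t ^ (-y))⁻¹ * (x : K), ?_⟩, ?_⟩
    · change G.t ^ (-y) * ((G.t ^ (-y))⁻¹ * (x : K)) ∈ G.B
      rw [e]
      exact x.2
    · change Ideal.Quotient.mk (Ideal.span {z}) ⟨G.t ^ (-y) * ((G.t ^ (-y))⁻¹ * (x : K)), _⟩ = _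
      congr 1
      exact Subtype.ext e
  have hk : ((G.M 0).map ((jpfE (k := k) a h : K ≃ₗ[k] K) : K →ₗ[k] K)).submoduleOf (G.M y) =
      LinearMap.ker f := by
    ext x
    rw [LinearMap.mem_ker]
    change (x : K) ∈ (G.M 0).map ((jpfE (k := k) a h : K ≃ₗ[k] K) : K →ₗ[k] K) ↔
      Ideal.Quotient.mk (Ideal.span {z}) ⟨G.t ^ (-y) * (x : K), x.2⟩ = 0
    rw [jpf_mem_map, Ideal.Quotient.eq_zero_iff_mem, Ideal.mem_span_singleton']
    constructor
    · rintro ⟨w, hw, hwx⟩
      refine ⟨⟨w, (G.mem_M_zero w).1 hw⟩, Subtype.ext ?_⟩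
      change w * (z : K) = G.t ^ (-y) * x
      rw [← hz, ← hwx]
      ring
    · rintro ⟨w, hw⟩
      refine ⟨(w : K), (G.mem_M_zero _).2 w.2, ?_⟩
      have := congrArg (Subtype.val) hw
      change (w : K) * (z : K) = G.t ^ (-y) * x at this
      rw [← hz] at this
      apply mul_left_cancel₀ ht
      rw [← this]
      ring
  (Submodule.quotEquivOfEq _ _ hk).trans (f.quotKerEquivOfSurjective hf)

/-- **The product formula.** -/
theorem degI_add {a : G.A} (ha : a ≠ 0) {y : ℤ} (z : G.B) (hz : G.t ^ (-y) * (a : K) = (z : K)) :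
    (G.degI (Ideal.span {a}) : ℤ) + Module.finrank k (G.B ⧸ Ideal.span {z}) = G.d * y := by
  have h : (a : K) ∈ G.M y := by
    change G.t ^ (-y) * (a : K) ∈ G.B
    rw [hz]
    exact z.2
  have ha' : (a : K) ≠ 0 := fun h => ha (Subtype.ext h)
  have e1 : G.degI (Ideal.span {a}) = Module.finrank k (Rel ((G.A.toSubmodule).map
      ((jpfE (k := k) (a : K) ha' : K ≃ₗ[k] K) : K →ₗ[k] K)) G.A.toSubmodule) :=
    (LinearEquiv.finrank_eq (G.jpfEquiv a ha')).symm
  have e2 : Module.finrank k (G.B ⧸ Ideal.span {z}) = Module.finrank k (Rel ((G.M 0).map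
      ((jpfE (k := k) (a : K) ha' : K ≃ₗ[k] K) : K →ₗ[k] K)) (G.M y)) :=
    (LinearEquiv.finrank_eq (G.jpfEquivB (a : K) ha' z hz)).symm
  have c1 := G.jpf_chiFin1 (a : K) ha'
  have m1 := (chi_map (jpfE (k := k) (a : K) ha') G.A.toSubmodule (G.M 0)).2
  obtain ⟨l1, l2⟩ := chi_left (M := (G.M 0).map
    ((jpfE (k := k) (a : K) ha' : K ≃ₗ[k] K) : K →ₗ[k] K)) (G.jpf_map_le a ha')
    (G.jpf_rel_A a ha')
  have l3 := l2 c1
  have c2 := chiFin_comm.mp (l1.mp c1)
  have l4 := (chi_left (M := G.A.toSubmodule) (G.jpf_M_le (a : K) ha' h)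
    (G.jpf_M_fin (a : K) ha')).2 c2
  rw [chi_comm (G.M y), G.chi_eq y, chi_comm _ G.A.toSubmodule] at l4
  rw [e1, e2]
  linarith

/-! ### The instances -/

theorem jfracB : IsFractionRing G.B K where
  map_units := by
    intro b
    refine isUnit_iff_ne_zero.2 ?_
    intro h
    exact nonZeroDivisors.ne_zero b.2 (Subtype.ext h)
  surj := by
    intro x
    obtain ⟨n, hn⟩ := G.exh x
    have h0 : G.ti ^ n ≠ 0 := by
      intro h
      have h1 : (G.t⁻¹) ^ n = 0 := congrArg Subtype.val h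
      exact pow_ne_zero n (inv_ne_zero G.t_ne) h1
    refine ⟨(⟨(G.t⁻¹) ^ n * x, hn⟩, ⟨G.ti ^ n, mem_nonZeroDivisors_of_ne_zero h0⟩), ?_⟩
    change x * (G.t⁻¹) ^ n = (G.t⁻¹) ^ n * x
    ring
  exists_of_eq := by
    intro x y h
    exact ⟨1, by rw [Subtype.ext h]⟩

instance : IsFractionRing G.B K := G.jfracB

theorem jti_ne : G.ti ≠ 0 := by
  intro h
  exact inv_ne_zero G.t_ne (congrArg Subtype.val h)

theorem infinite_B : Infinite G.B := by
  by_contra hfin
  rw [not_infinite_iff_finite] at hfin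
  have hF := Finite.isField_of_domain G.B
  obtain ⟨y, hy⟩ := hF.mul_inv_cancel G.jti_ne
  obtain ⟨m, hm⟩ := Ideal.exists_maximal G.B
  have h1 := G.rad m hm
  exact hm.ne_top (Ideal.eq_top_of_isUnit_mem _ h1 (IsUnit.of_mul_eq_one y hy))

theorem infinite_A : Infinite G.A := by
  by_contra hfin
  rw [not_infinite_iff_finite] at hfin
  have hF := Finite.isField_of_domain G.A
  obtain ⟨x, y, hy, hxy⟩ := IsFractionRing.div_surjective (A := G.A) (G.t⁻¹)
  obtain ⟨z, hz⟩ := hF.mul_inv_cancel (nonZeroDivisors.ne_zero hy)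
  apply G.inv_not_mem
  have hz' : algebraMap G.A K y * algebraMap G.A K z = 1 := by
    rw [← map_mul, hz, map_one]
  have hy0 : algebraMap G.A K y ≠ 0 := left_ne_zero_of_mul_eq_one hz'
  have h1 : G.t⁻¹ = algebraMap G.A K (x * z) := by
    rw [map_mul, ← hxy, div_eq_iff hy0]
    linear_combination (-(algebraMap G.A K x)) * hz'
  rw [h1]
  exact (x * z).2

section finite
variable [Finite k]

theorem hfqA : Ring.HasFiniteQuotients G.A where
  finiteQuotient {I} hI := by
    have := G.fin_quotI I hI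
    exact Module.finite_of_finite k

theorem hfqB : Ring.HasFiniteQuotients G.B where
  finiteQuotient {I} hI := by
    obtain ⟨z, hzI, hz⟩ := Submodule.exists_mem_ne_zero_of_ne_bot hI
    have hz' : (z : K) ≠ 0 := fun h => hz (Subtype.ext h)
    obtain ⟨n, hn⟩ := G.exh (z : K)⁻¹
    have h1 : G.ti ^ n ∈ I := by
      have : G.ti ^ n = ⟨_, hn⟩ * z := by
        apply Subtype.ext
        change (G.t⁻¹) ^ n = ((G.t⁻¹) ^ n * (z : K)⁻¹) * (z : K)
        field_simp
      rw [this]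
      exact I.mul_mem_left _ hzI
    have hle : Ideal.span {G.ti} ^ n ≤ I := by
      rw [Ideal.span_singleton_pow, Ideal.span_singleton_le_iff_mem]
      exact h1
    have : Module.Finite k (G.B ⧸ Ideal.span {G.ti}) := G.fin_quot
    have h2 : Finite (G.B ⧸ Ideal.span {G.ti}) := Module.finite_of_finite k
    have h3 : Finite (G.B ⧸ Ideal.span {G.ti} ^ n) :=
      Ideal.finite_quotient_pow (Submodule.fg_span_singleton _) n
    exact Finite.of_surjective _ (Ideal.Quotient.factor_surjective hle)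

omit [Finite k] in
theorem jcard_quot {R : Type} [CommRing R] [Algebra k R] (I : Ideal R) :
    I.cardQuot = Nat.card k ^ Module.finrank k (R ⧸ I) ∨ ¬ Module.Finite k (R ⧸ I) := by
  by_cases h : Module.Finite k (R ⧸ I)
  · left
    rw [Submodule.cardQuot_apply]
    exact Module.natCard_eq_pow_finrank
  · right
    exact h

theorem pf : BSDK.PF G.A G.B K G.ti := by
  have hA := G.hfqA
  have hB := G.hfqB
  have hrad : ∀ Q : HeightOneSpectrum G.B, G.ti ∈ Q.asIdeal := fun Q => G.rad _ Q.isMaximal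
  refine ⟨hrad, ?_, G.jti_ne, ?_, ?_⟩
  · have h0 : Ideal.span {G.ti} ≠ 0 := by simpa using G.jti_ne
    have h1 := Ideal.finite_factors h0
    refine Set.finite_univ_iff.1 (h1.subset fun Q _ => ?_)
    rw [Set.mem_ofPred_eq, Ideal.dvd_span_singleton]
    exact hrad Q
  · intro y
    have hL := G.fin_L (y : ℤ)
    have hLf : Finite (G.L (y : ℤ)) := Module.finite_of_finite k
    refine Set.Finite.of_injOn (f := fun r : G.A => (r : K)) (t := (G.L (y : ℤ) : Set K)) ?_ ?_
      (Set.toFinite _)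
    · rintro r ⟨b, hb⟩
      refine ⟨r.2, ?_⟩
      change G.t ^ (-(y : ℤ)) * (r : K) ∈ G.B
      have h1 : (r : K) * (G.t⁻¹) ^ y = (b : K) := hb
      have h2 : G.t ^ (-(y : ℤ)) * (r : K) = (b : K) := by
        rw [← h1, zpow_neg, zpow_natCast, inv_pow]
        ring
      rw [h2]
      exact b.2
    · intro r _ r' _ h
      exact Subtype.ext h
  · intro x z y hx hz
    have hz' : G.t ^ (-(y : ℤ)) * (x : K) = (z : K) := by
      have h1 : (x : K) * (G.t⁻¹) ^ y = (z : K) := hz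
      rw [← h1, zpow_neg, zpow_natCast, inv_pow]
      ring
    have hx' : (x : K) ≠ 0 := fun h => hx (Subtype.ext h)
    have hz0 : z ≠ 0 := by
      rintro rfl
      exact mul_ne_zero (zpow_ne_zero _ G.t_ne) hx' hz'
    have hd := G.degI_add hx z hz'
    have f1 := G.fin_quotI (Ideal.span {x}) (by simpa using hx)
    have f2 : Module.Finite k (G.B ⧸ Ideal.span {z}) := by
      have : Finite (G.B ⧸ Ideal.span {z}) := hB.finiteQuotient (by simpa using hz0)
      exact Module.Finite.of_finite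
    have f3 : Module.Finite k (G.B ⧸ Ideal.span {G.ti}) := G.fin_quot
    have c1 := (jcard_quot (k := k) (Ideal.span {x})).resolve_right (not_not.2 f1)
    have c2 := (jcard_quot (k := k) (Ideal.span {z})).resolve_right (not_not.2 f2)
    have c3 := (jcard_quot (k := k) (Ideal.span {G.ti})).resolve_right (not_not.2 f3)
    have hdim : Module.finrank k (G.B ⧸ Ideal.span {G.ti}) = G.d := G.dim_quot
    rw [c1, c2, c3, ← pow_add, ← pow_mul, hdim]
    congr 1
    unfold degI at hd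
    exact_mod_cast hd

end finite

end Pool.Agent.GBC.Geo
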